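import Mathlib

/-!
# The congruences for the sums of binom(-1/3,k) binom(-1/6,k) / (-16)^k fail at p = 17

For `p = 17` one has `4 p = 17 x^2 + 3 y^2` with `x = 2`, `y = 0`, and the first sum is not congruent modulo
`17^2` to the second member (which is `0`, because of the Legendre symbol `(17/17) = 0`), nor to the third.
-/

set_option autoImplicit false

namespace Pool.Agent.Results.MP_f496b1_nt.FailsAtSeventeen

/-- the binomial coefficient `binom(a, k) = a (a-1) ... (a-k+1) / k!` -/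
def binom (a : ℚ) (k : ℕ) : ℚ := (∏ i ∈ Finset.range k, (a - i)) / (k.factorial : ℚ)

/-- `S_1(p)` -/
def S1 (p : ℕ) : ℚ := ∑ k ∈ Finset.range p, binom (-1 / 3) k * binom (-1 / 6) k / (-16) ^ k

/-- `S_2(p)` -/
def S2 (p : ℕ) : ℚ := ∑ k ∈ Finset.range p, binom (-2 / 3) k * binom (-5 / 6) k / (-16) ^ k

/-- `ε_p`, which is `1` if `p ≡ 1` and `17/16` if `p ≡ 2` modulo `3` -/
def eps (p : ℕ) : ℚ := if p % 3 = 1 then 1 else 17 / 16

/-- `a ≡ b` modulo `p^e` in the localisation of `ℤ` at `p` -/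
def Cong (p e : ℕ) (a b : ℚ) : Prop := ∃ r : ℚ, ¬ p ∣ r.den ∧ a - b = (p : ℚ) ^ e * r

/-- the middle member `(17/p) ε_p S_2(p)` -/
def mid (p : ℕ) : ℚ := (jacobiSym 17 p : ℚ) * eps p * S2 p

/-- the statement of Q1 for the prime `p` -/
def Holds (p : ℕ) : Prop :=
  (∀ x y : ℤ, 4 * (p : ℤ) = x ^ 2 + 51 * y ^ 2 →
    Cong p 2 (S1 p) (mid p) ∧ Cong p 2 (mid p) (-(jacobiSym x 3 : ℚ) * (x - p / x))) ∧
  (∀ x y : ℤ, 4 * (p : ℤ) = 17 * x ^ 2 + 3 * y ^ 2 →
    Cong p 2 (S1 p) (mid p) ∧ Cong p 2 (mid p) (1 / 4 * (jacobiSym x 3 : ℚ) * (17 * x - p / x))) ∧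
  (jacobiSym p 3 = 1 → jacobiSym p 17 = -1 → Cong p 1 (S1 p) (mid p) ∧ Cong p 1 (mid p) 0)

theorem s1_den : (S1 17 / 289).den % 17 = 0 := by
  decide +kernel

theorem s1_den' : ((S1 17 - 1 / 4 * (-1) * (17 * 2 - 17 / 2)) / 289).den % 17 = 0 := by
  decide +kernel

/-- For `p = 17` the first congruence fails in every representation, and so does the congruence between the
first and the last member; thus Q1 as stated (for every prime `p > 3`) is false. -/
theorem result :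
    (∃ x y : ℤ, 4 * (17 : ℤ) = 17 * x ^ 2 + 3 * y ^ 2) ∧ ¬ Cong 17 2 (S1 17) (mid 17) ∧
      (∀ x y : ℤ, 4 * (17 : ℤ) = 17 * x ^ 2 + 3 * y ^ 2 →
        ¬ Cong 17 2 (S1 17) (1 / 4 * (jacobiSym x 3 : ℚ) * (17 * x - 17 / x))) ∧
      ¬ ∀ p : ℕ, p.Prime → 3 < p → Holds p := by
  have hJ : mid 17 = 0 := by
    unfold mid
    have : jacobiSym 17 17 = 0 := by norm_num
    rw [show ((17 : ℕ)) = 17 from rfl, this]
    simp
  have h1 : ¬ Cong 17 2 (S1 17) (mid 17) := by
    rw [hJ]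
    rintro ⟨r, hr, h⟩
    have h2 : r = S1 17 / 289 := by
      rw [sub_zero] at h
      rw [h]
      push_cast
      ring
    rw [h2] at hr
    exact hr (Nat.dvd_of_mod_eq_zero s1_den)
  refine ⟨⟨2, 0, by norm_num⟩, h1, ?_, ?_⟩
  · intro x y hxy ⟨r, hr, h⟩
    have hx : x = 2 ∨ x = -2 := by
      have h3 : x ^ 2 ≤ 4 := by nlinarith [sq_nonneg y]
      have h4 : x ≤ 2 := by nlinarith
      have h5 : -2 ≤ x := by nlinarith
      have h6 : (3 : ℤ) ∣ 4 * 17 - 17 * x ^ 2 := ⟨y ^ 2, by linarith⟩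
      have h7 : y ^ 2 ≤ 22 := by nlinarith [sq_nonneg x]
      have h8 : y ≤ 4 := by nlinarith
      have h9 : -4 ≤ y := by nlinarith
      interval_cases x <;> interval_cases y <;> simp_all
    have key : (1 / 4 * (jacobiSym x 3 : ℚ) * (17 * x - 17 / x)) =
        1 / 4 * (-1) * (17 * 2 - 17 / 2) := by
      rcases hx with rfl | rfl
      · have : jacobiSym 2 3 = -1 := by norm_num
        rw [this]
        norm_num
      · have : jacobiSym (-2) 3 = 1 := by norm_num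
        rw [this]
        norm_num
    rw [key] at h
    have h2 : r = (S1 17 - 1 / 4 * (-1) * (17 * 2 - 17 / 2)) / 289 := by
      rw [h]
      push_cast
      ring
    rw [h2] at hr
    exact hr (Nat.dvd_of_mod_eq_zero s1_den')
  · intro h
    exact h1 ((h 17 (by norm_num) (by norm_num)).2.1 2 0 (by norm_num)).1

end Pool.Agent.Results.MP_f496b1_nt.FailsAtSeventeen
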